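import Mathlib
import Pool.Agent.H677R3.AbSusp

/-!
Lower bound `reg I(G)^q ≥ reg I(G) + q - 1`: exactness of the strands of the Koszul complex of
`I(G)^q` implies exactness of the strands of the Koszul complexes of powers of the variables.
-/

set_option linter.unusedSectionVars false

namespace Pool.Agent.H816R3.EdgeLow

open Finset Pool.Agent.H677R3 Pool.Agent.H677R3.Ab

variable {n : ℕ} {k : Type*} [Field k]

/-- exactness of a family in size `i` -/
def Acy (k : Type*) [Field k] (K : Finset (Fin n) → Prop) (i : ℕ) : Prop :=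
  ∀ a : Finset (Fin n) → k, (∀ T, a T ≠ 0 → K T ∧ T.card = i) → (∀ T, EdgeReg.cd a T = 0) →
    ∃ g : Finset (Fin n) → k, (∀ T, g T ≠ 0 → K T ∧ T.card = i + 1) ∧ ∀ T, EdgeReg.cd g T = a T

lemma Acy.congr {K K' : Finset (Fin n) → Prop} (h : ∀ T, K T ↔ K' T) {i : ℕ} (hK : Acy k K i) :
    Acy k K' i := by
  have : K = K' := funext fun T => propext (h T)
  rwa [← this]

lemma cd_split (a : Finset (Fin n) → k) {u : Fin n} {T : Finset (Fin n)} (hu : u ∉ T) :
    EdgeReg.cd a T = (∑ j ∈ (insert u T)ᶜ, EdgeReg.sg k j T * a (insert j T)) +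
      EdgeReg.sg k u T * a (insert u T) := by
  unfold EdgeReg.cd
  have h1 : Tᶜ = insert u ((insert u T)ᶜ) := by
    ext x
    simp only [Finset.mem_compl, Finset.mem_insert]
    by_cases hx : x = u
    · subst hx; simp [hu]
    · simp [hx]
  rw [h1, Finset.sum_insert (by simp), add_comm]

/-- the two-step argument -/
lemma step (u : Fin n) (K K1 K2 : Finset (Fin n) → Prop) (i : ℕ)
    (hA : ∀ T, u ∉ T → (K T ↔ K1 T)) (hB : ∀ T, u ∉ T → K2 T → K T)
    (hC : ∀ T, u ∉ T → (K1 (insert u T) ↔ K2 T)) (hD : ∀ T, u ∈ T → (K T ↔ K2 T))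
    (hE : ∀ T, u ∈ T → K T → K1 T) (h1 : Acy k K1 i) (h2 : Acy k K2 i) : Acy k K i := by
  classical
  intro z hz hcz
  obtain ⟨g1, hg1, hg1c⟩ := h1 z (by
    intro T hT
    refine ⟨?_, (hz T hT).2⟩
    by_cases hu : u ∈ T
    · exact hE T hu (hz T hT).1
    · exact (hA T hu).1 (hz T hT).1) hcz
  obtain ⟨g2, hg2, hg2c⟩ := h2 (fun T => if u ∈ T then z T else EdgeReg.sg k u T * g1 (insert u T)) (by
    intro T hT
    beta_reduce at hT
    by_cases hu : u ∈ T
    · rw [if_pos hu] at hT
      exact ⟨(hD T hu).1 (hz T hT).1, (hz T hT).2⟩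
    · rw [if_neg hu] at hT
      have h3 : g1 (insert u T) ≠ 0 := fun h => hT (by rw [h, mul_zero])
      obtain ⟨h4, h5⟩ := hg1 _ h3
      rw [Finset.card_insert_of_notMem hu] at h5
      exact ⟨(hC T hu).1 h4, by omega⟩) (by
    intro T
    by_cases hu : u ∈ T
    · rw [← hcz T]
      unfold EdgeReg.cd
      refine Finset.sum_congr rfl fun j _ => ?_
      beta_reduce
      rw [if_pos (Finset.mem_insert_of_mem hu)]
    · rw [cd_split _ hu]
      beta_reduce
      rw [if_pos (Finset.mem_insert_self _ _), ← hg1c (insert u T)]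
      unfold EdgeReg.cd
      rw [Finset.mul_sum, ← Finset.sum_add_distrib]
      refine Finset.sum_eq_zero fun j hj => ?_
      have hj' : j ≠ u ∧ j ∉ T := by simpa using hj
      have h3 : u ∉ insert j T := by
        simp only [Finset.mem_insert, not_or]
        exact ⟨fun h => hj'.1 h.symm, hu⟩
      rw [if_neg h3, Finset.insert_comm u j T, ← mul_assoc, ← mul_assoc, ← add_mul,
        EdgeReg.sg_swap (fun h => hj'.1 h.symm) hu hj'.2, zero_mul])
  refine ⟨fun T => if u ∈ T then g2 T else g1 T + g2 T, ?_, ?_⟩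
  · intro T hT
    beta_reduce at hT
    by_cases hu : u ∈ T
    · rw [if_pos hu] at hT
      exact ⟨(hD T hu).2 (hg2 T hT).1, (hg2 T hT).2⟩
    · rw [if_neg hu] at hT
      by_cases h3 : g1 T = 0
      · rw [h3, zero_add] at hT
        exact ⟨hB T hu (hg2 T hT).1, (hg2 T hT).2⟩
      · exact ⟨(hA T hu).2 (hg1 T h3).1, (hg1 T h3).2⟩
  · intro T
    by_cases hu : u ∈ T
    · have h3 := hg2c T
      rw [if_pos hu] at h3
      rw [← h3]
      unfold EdgeReg.cd
      refine Finset.sum_congr rfl fun j _ => ?_
      beta_reduce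
      rw [if_pos (Finset.mem_insert_of_mem hu)]
    · have h3 := hg2c T
      rw [if_neg hu, cd_split _ hu] at h3
      have h4 := hg1c T
      rw [cd_split _ hu] at h4
      rw [cd_split _ hu]
      beta_reduce
      rw [if_pos (Finset.mem_insert_self _ _)]
      have h5 : ∑ j ∈ (insert u T)ᶜ, EdgeReg.sg k j T *
          (if u ∈ insert j T then g2 (insert j T) else g1 (insert j T) + g2 (insert j T)) =
          (∑ j ∈ (insert u T)ᶜ, EdgeReg.sg k j T * g1 (insert j T)) +
          ∑ j ∈ (insert u T)ᶜ, EdgeReg.sg k j T * g2 (insert j T) := by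
        rw [← Finset.sum_add_distrib]
        refine Finset.sum_congr rfl fun j hj => ?_
        have hj' : j ≠ u ∧ j ∉ T := by simpa using hj
        have h3 : u ∉ insert j T := by
          simp only [Finset.mem_insert, not_or]
          exact ⟨fun h => hj'.1 h.symm, hu⟩
        rw [if_neg h3, mul_add]
      rw [h5]
      linear_combination h3 + h4

/-- the family of the power strand -/
def PK (P : (Fin n → ℕ) → Prop) (U : Finset (Fin n)) (N a0 : Fin n → ℕ) (T : Finset (Fin n)) : Prop :=
  T ⊆ U ∧ P (fun x => a0 x + if x ∈ U \ T then N x else 0)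

lemma PK.congr' {P : (Fin n → ℕ) → Prop} {U : Finset (Fin n)} {N a0 N' a0' : Fin n → ℕ}
    {T T' : Finset (Fin n)} (hT : T ⊆ U ↔ T' ⊆ U)
    (h : ∀ x, a0 x + (if x ∈ U \ T then N x else 0) = a0' x + (if x ∈ U \ T' then N' x else 0)) :
    PK P U N a0 T ↔ PK P U N' a0' T' := by
  unfold PK
  rw [hT, funext h]

lemma PK.mono' {P : (Fin n → ℕ) → Prop} (hP : ∀ c c' : Fin n → ℕ, (∀ x, c x ≤ c' x) → P c → P c')
    {U : Finset (Fin n)} {N a0 N' a0' : Fin n → ℕ}
    {T T' : Finset (Fin n)} (hT : T ⊆ U → T' ⊆ U)
    (h : ∀ x, a0 x + (if x ∈ U \ T then N x else 0) ≤ a0' x + (if x ∈ U \ T' then N' x else 0))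
    (hK : PK P U N a0 T) : PK P U N' a0' T' :=
  ⟨hT hK.1, hP _ _ h hK.2⟩

theorem power_acy (P : (Fin n → ℕ) → Prop) (hP : ∀ c c' : Fin n → ℕ, (∀ x, c x ≤ c' x) → P c → P c')
    (U : Finset (Fin n)) (i D : ℕ)
    (base : ∀ a1 : Fin n → ℕ, (∀ x, x ∉ U → a1 x = 0) → D ≤ ∑ x, a1 x →
      Acy k (PK P U (fun _ => 1) a1) i) :
    ∀ (s : ℕ) (N : Fin n → ℕ), (∀ x ∈ U, 1 ≤ N x) → ∑ x ∈ U, (N x - 1) ≤ s →
      ∀ a0 : Fin n → ℕ, (∀ x, x ∉ U → a0 x = 0) → D ≤ ∑ x, a0 x → Acy k (PK P U N a0) i := by
  classical
  have hbase : ∀ N : Fin n → ℕ, (∀ x ∈ U, 1 ≤ N x) → ∑ x ∈ U, (N x - 1) = 0 →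
      ∀ a0 : Fin n → ℕ, (∀ x, x ∉ U → a0 x = 0) → D ≤ ∑ x, a0 x → Acy k (PK P U N a0) i := by
    intro N hN hs a0 h0 hD
    refine (base a0 h0 hD).congr fun T => ?_
    refine PK.congr' Iff.rfl fun x => ?_
    by_cases hx : x ∈ U \ T
    · rw [if_pos hx, if_pos hx]
      have h1 := (Finset.sum_eq_zero_iff.1 hs) x (Finset.mem_sdiff.1 hx).1
      have h2 := hN x (Finset.mem_sdiff.1 hx).1
      omega
    · rw [if_neg hx, if_neg hx]
  intro s
  induction s with
  | zero =>
    intro N hN hs a0 h0 hD
    exact hbase N hN (by omega) a0 h0 hD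
  | succ s ih =>
    intro N hN hs a0 h0 hD
    by_cases hall : ∑ x ∈ U, (N x - 1) = 0
    · exact hbase N hN hall a0 h0 hD
    obtain ⟨u, huU, hu1⟩ : ∃ u ∈ U, N u - 1 ≠ 0 := by
      by_contra h
      push Not at h
      exact hall (Finset.sum_eq_zero h)
    have hs2 : ∑ x ∈ U, (Function.update N u (N u - 1) x - 1) ≤ s := by
      rw [← Finset.add_sum_erase _ _ huU] at hs ⊢
      rw [Function.update_self]
      have : ∑ x ∈ U.erase u, (Function.update N u (N u - 1) x - 1) = ∑ x ∈ U.erase u, (N x - 1) :=
        Finset.sum_congr rfl fun x hx => by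
          rw [Function.update_of_ne (Finset.ne_of_mem_erase hx)]
      rw [this]
      omega
    have hN2 : ∀ x ∈ U, 1 ≤ Function.update N u (N u - 1) x := by
      intro x hx
      by_cases hxu : x = u
      · subst hxu; rw [Function.update_self]; omega
      · rw [Function.update_of_ne hxu]; exact hN x hx
    have h2 := ih _ hN2 hs2 a0 h0 hD
    have h1 : Acy k (PK P U (Function.update N u 1) (Function.update a0 u (a0 u + (N u - 1)))) i := by
      have hle : ∑ x ∈ U, (Function.update N u 1 x - 1) ≤ s := by
        rw [← Finset.add_sum_erase _ _ huU] at hs ⊢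
        rw [Function.update_self]
        have : ∑ x ∈ U.erase u, (Function.update N u 1 x - 1) = ∑ x ∈ U.erase u, (N x - 1) :=
          Finset.sum_congr rfl fun x hx => by
            rw [Function.update_of_ne (Finset.ne_of_mem_erase hx)]
        rw [this]
        omega
      refine ih _ ?_ hle _ ?_ ?_
      · intro x hx
        by_cases hxu : x = u
        · subst hxu; rw [Function.update_self]
        · rw [Function.update_of_ne hxu]; exact hN x hx
      · intro x hx
        have hxu : x ≠ u := by rintro rfl; exact hx huU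
        rw [Function.update_of_ne hxu]
        exact h0 x hx
      · refine hD.trans (Finset.sum_le_sum fun x _ => ?_)
        by_cases hxu : x = u
        · subst hxu; rw [Function.update_self]; omega
        · rw [Function.update_of_ne hxu]
    refine step u _ _ _ i ?_ ?_ ?_ ?_ ?_ h1 h2
    · intro T hT
      refine PK.congr' Iff.rfl fun x => ?_
      by_cases hxu : x = u
      · subst hxu
        rw [if_pos (Finset.mem_sdiff.2 ⟨huU, hT⟩), if_pos (Finset.mem_sdiff.2 ⟨huU, hT⟩),
          Function.update_self, Function.update_self]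
        omega
      · rw [Function.update_of_ne hxu, Function.update_of_ne hxu]
    · intro T hT
      refine PK.mono' hP (fun h => h) fun x => ?_
      by_cases hxu : x = u
      · subst hxu
        rw [if_pos (Finset.mem_sdiff.2 ⟨huU, hT⟩), if_pos (Finset.mem_sdiff.2 ⟨huU, hT⟩),
          Function.update_self]
        omega
      · rw [Function.update_of_ne hxu]
    · intro T hT
      refine PK.congr' ?_ fun x => ?_
      · rw [Finset.insert_subset_iff]
        exact ⟨fun h => h.2, fun h => ⟨huU, h⟩⟩
      · by_cases hxu : x = u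
        · subst hxu
          rw [if_neg (by simp), if_pos (Finset.mem_sdiff.2 ⟨huU, hT⟩),
            Function.update_self, Function.update_self]
          omega
        · rw [Function.update_of_ne hxu, Function.update_of_ne hxu, Function.update_of_ne hxu]
          have : x ∈ U \ insert u T ↔ x ∈ U \ T := by simp [hxu]
          by_cases hx : x ∈ U \ T
          · rw [if_pos hx, if_pos (this.2 hx)]
          · rw [if_neg hx, if_neg (fun h => hx (this.1 h))]
    · intro T hT
      refine PK.congr' Iff.rfl fun x => ?_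
      by_cases hxu : x = u
      · subst hxu
        rw [if_neg (by simp [hT]), if_neg (by simp [hT])]
      · rw [Function.update_of_ne hxu]
    · intro T hT
      refine PK.mono' hP (fun h => h) fun x => ?_
      by_cases hxu : x = u
      · subst hxu
        rw [if_neg (by simp [hT]), if_neg (by simp [hT]), Function.update_self]
        omega
      · rw [Function.update_of_ne hxu, Function.update_of_ne hxu]

lemma up_power (G : SimpleGraph (Fin n)) (q : ℕ) (hq : 1 ≤ q) (v : Fin n) (F : Finset (Fin n)) :
    EdgeReg.Up G q (fun x => (q - 1) * EdgeReg.e1 v x + if x ∈ F then q else 0) ↔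
      ¬ EdgeReg.Indep G F := by
  classical
  constructor
  · rintro ⟨d, ⟨A, hA, hAd⟩, hsum, hle⟩ hind
    have hne : ∀ x y, A x y ≠ 0 → x = v ∨ x ∈ F := by
      intro x y h
      by_contra hc
      push Not at hc
      have h1 : A x y ≤ EdgeReg.dg A x :=
        Finset.single_le_sum (f := fun y => A x y) (fun _ _ => Nat.zero_le _) (Finset.mem_univ y)
      have h2 := hle x
      beta_reduce at h2
      rw [if_neg hc.2, EdgeReg.e1_ne hc.1] at h2
      rw [hAd] at h1
      omega
    have hne' : ∀ x y, A x y ≠ 0 → y = v ∨ y ∈ F := by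
      intro x y h
      rw [hA.symm] at h
      exact hne y x h
    by_cases hv : v ∈ F
    · have h0 : ∀ x y, A x y = 0 := by
        intro x y
        by_contra h
        have h1 : x ∈ F := by
          rcases hne x y h with rfl | h1
          · exact hv
          · exact h1
        have h2 : y ∈ F := by
          rcases hne' x y h with rfl | h1
          · exact hv
          · exact h1
        exact hind x h1 y h2 (hA.adj x y h)
      have h1 : ∑ x, d x = 0 := Finset.sum_eq_zero fun x _ => by
        rw [← hAd]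
        exact Finset.sum_eq_zero fun y _ => h0 x y
      omega
    · have h1 : ∀ x, x ≠ v → d x = A x v := by
        intro x hx
        rw [← hAd]
        unfold EdgeReg.dg
        refine Finset.sum_eq_single v (fun y _ hy => ?_) (fun h => absurd (Finset.mem_univ _) h)
        by_contra h
        rcases hne x y h with h2 | h2
        · exact hx h2
        · rcases hne' x y h with h3 | h3
          · exact hy h3
          · exact hind x h2 y h3 (hA.adj x y h)
      have h2 : ∑ x ∈ Finset.univ.erase v, d x ≤ d v := by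
        rw [← hAd v]
        unfold EdgeReg.dg
        calc ∑ x ∈ Finset.univ.erase v, d x = ∑ x ∈ Finset.univ.erase v, A v x :=
              Finset.sum_congr rfl fun x hx => by
                rw [h1 x (Finset.ne_of_mem_erase hx), hA.symm]
          _ ≤ ∑ x, A v x := Finset.sum_le_sum_of_subset (Finset.erase_subset _ _)
      have h3 := Finset.add_sum_erase Finset.univ d (Finset.mem_univ v)
      have h4 := hle v
      beta_reduce at h4
      rw [if_neg hv, EdgeReg.e1_self] at h4
      omega
  · intro h
    unfold EdgeReg.Indep at h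
    push Not at h
    obtain ⟨x, hx, y, hy, hadj⟩ := h
    refine ⟨_, isDeg_mul hadj q, ?_, ?_⟩
    · rw [← Finset.mul_sum, Finset.sum_add_distrib, EdgeReg.sum_e1, EdgeReg.sum_e1]
      ring
    · intro z
      beta_reduce
      by_cases hzx : z = x
      · subst hzx
        rw [EdgeReg.e1_self, EdgeReg.e1_ne hadj.ne, if_pos hx]
        omega
      · rw [EdgeReg.e1_ne hzx]
        by_cases hzy : z = y
        · subst hzy; rw [EdgeReg.e1_self, if_pos hy]; omega
        · rw [EdgeReg.e1_ne hzy]; omega

/-- `reg I(G)^q ≥ reg I(G) + q - 1` -/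
theorem lowerA (G : SimpleGraph (Fin n)) (q : ℕ) (hq : 1 ≤ q) (R : ℕ)
    (hR : ∀ i e, R < e → ¬ EdgeReg.TorNe ((EdgeReg.edgeIdeal k G) ^ q) i e)
    (W : Finset (Fin n)) (j : ℕ) (hj1 : 1 ≤ j) (hj : R < j + q) : HV k (Ind G.Adj W) j := by
  classical
  rcases Nat.lt_or_ge j W.card with hlt | hge
  · have hne : W.Nonempty := Finset.card_pos.mp (by omega)
    obtain ⟨v, hv⟩ := id hne
    obtain ⟨i, hi⟩ : ∃ i, W.card = j + (i + 1) := ⟨W.card - j - 1, by omega⟩
    have hPm : ∀ c c' : Fin n → ℕ, (∀ x, c x ≤ c' x) → EdgeReg.Up G q c → EdgeReg.Up G q c' :=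
      fun c c' h => EdgeReg.up_mono h
    have hac : Acy k (PK (EdgeReg.Up G q) W (fun _ => q) (fun x => (q - 1) * EdgeReg.e1 v x)) i := by
      refine power_acy (EdgeReg.Up G q) hPm W i (q - 1) ?_ _ (fun _ => q) (fun _ _ => hq) le_rfl _ ?_ ?_
      · intro a1 h0 hD a ha hc
        by_contra hne2
        let b : Fin n →₀ ℕ := Finsupp.equivFunOnFinite.symm (fun x => a1 x + if x ∈ W then 1 else 0)
        have hb : ∀ x, b x = a1 x + if x ∈ W then 1 else 0 := fun x => rfl
        have hKK : ∀ T, EdgeReg.KK (EdgeReg.Up G q) b T ↔ PK (EdgeReg.Up G q) W (fun _ => 1) a1 T := by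
          intro T
          have hsub : EdgeReg.ind T ≤ b ↔ T ⊆ W := by
            constructor
            · intro h x hx
              have h1 := h x
              rw [hb, EdgeReg.ind_apply, if_pos hx] at h1
              by_contra hxW
              rw [h0 x hxW, if_neg hxW] at h1
              omega
            · intro h x
              rw [hb, EdgeReg.ind_apply]
              by_cases hx : x ∈ T
              · rw [if_pos hx, if_pos (h hx)]; omega
              · rw [if_neg hx]; exact Nat.zero_le _
          unfold EdgeReg.KK PK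
          rw [hsub]
          refine and_congr_right fun hT => ?_
          have : (⇑(b - EdgeReg.ind T) : Fin n → ℕ) = fun x => a1 x + if x ∈ W \ T then 1 else 0 := by
            funext x
            rw [Finsupp.coe_tsub, Pi.sub_apply, hb, EdgeReg.ind_apply]
            by_cases hx : x ∈ T
            · rw [if_pos hx, if_pos (hT hx), if_neg (by simp [hx])]; omega
            · rw [if_neg hx]
              by_cases hxW : x ∈ W
              · rw [if_pos hxW, if_pos (by simp [hx, hxW])]; omega
              · rw [if_neg hxW, if_neg (by simp [hxW])]; omega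
          rw [this]
        have hsumb : ∑ x, b x = ∑ x, a1 x + W.card := by
          rw [Finset.sum_congr rfl (fun x _ => hb x), Finset.sum_add_distrib, Finset.sum_boole]
          simp
        refine hR i (∑ x, a1 x + j + 1) (by omega) (EdgeReg.lower_transfer _ (EdgeReg.Up G q)
          (EdgeReg.mem_pow k G q) i _ b (by rw [hsumb]; omega) a
          (fun T hT => ⟨(hKK T).2 (ha T hT).1, (ha T hT).2⟩) hc ?_)
        rintro ⟨g, hg1, hg2⟩
        exact hne2 ⟨g, fun T hT => ⟨(hKK T).1 (hg1 T hT).1, (hg1 T hT).2⟩, hg2⟩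
      · intro x hx
        have hxv : x ≠ v := by rintro rfl; exact hx hv
        rw [EdgeReg.e1_ne hxv, mul_zero]
      · rw [← Finset.mul_sum, EdgeReg.sum_e1, mul_one]
    have hKiff : ∀ T, T ⊆ W →
        (PK (EdgeReg.Up G q) W (fun _ => q) (fun x => (q - 1) * EdgeReg.e1 v x) T ↔
          ¬ EdgeReg.Indep G (W \ T)) := by
      intro T hT
      unfold PK
      rw [up_power G q hq v (W \ T)]
      exact ⟨fun h => h.2, fun h => ⟨hT, h⟩⟩
    refine hv_of_rel W (Ind G.Adj W)
      (fun T => T ⊆ W ∧ ¬ PK (EdgeReg.Up G q) W (fun _ => q) (fun x => (q - 1) * EdgeReg.e1 v x) T)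
      (Ind.down _ _) (fun F hF => hF.1) ?_ (l := i + 1) hi.symm ?_
    · intro T
      constructor
      · rintro ⟨h1, h2⟩
        rw [hKiff T h1, not_not] at h2
        exact ⟨h1, ind_indep.mpr ⟨Finset.sdiff_subset, h2⟩⟩
      · rintro ⟨h1, h2⟩
        refine ⟨h1, ?_⟩
        rw [hKiff T h1, not_not]
        exact (ind_indep.mp h2).2
    · refine rel_of_acyc W hne _ (fun T hT => hT.1) ?_ i hac
      rintro T w hw hK
      refine PK.mono' hPm (fun h => (Finset.subset_insert _ _).trans h) (fun x => ?_) hK
      by_cases h1 : x ∈ W \ insert w T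
      · rw [if_pos h1, if_pos (Finset.sdiff_subset_sdiff (Finset.Subset.refl _)
          (Finset.subset_insert _ _) h1)]
      · rw [if_neg h1]; omega
  · intro a ha hc
    have h0 : ∀ F, a F = 0 := by
      intro F
      by_contra hF
      obtain ⟨h1, h2⟩ := ha F hF
      have hFU : F = W := Finset.eq_of_subset_of_card_le h1.1 (by omega)
      obtain ⟨v, hv⟩ : F.Nonempty := Finset.card_pos.mp (by omega)
      have h3 := hc (F.erase v)
      unfold bd at h3
      rw [Finset.sum_eq_single v] at h3
      · rw [Finset.insert_erase hv] at h3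
        have h4 := congrArg (fun z => sg k v (F.erase v) * z) h3
        beta_reduce at h4
        rw [← mul_assoc, sg_mul_self, one_mul, mul_zero] at h4
        exact hF h4
      · intro u hu huv
        have h4 : a (insert u (F.erase v)) = 0 := by
          by_contra h5
          have h6 := (ha _ h5).1.1 (Finset.mem_insert_self _ _)
          rw [← hFU] at h6
          exact (Finset.mem_compl.mp hu) (Finset.mem_erase.mpr ⟨huv, h6⟩)
        rw [h4, mul_zero]
      · intro h
        exact absurd (Finset.mem_compl.mpr (Finset.notMem_erase v F)) h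
    exact ⟨fun _ => 0, fun F h => absurd rfl h, fun F => by rw [bd_zero, h0]⟩

end Pool.Agent.H816R3.EdgeLow
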