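import Mathlib
import Pool.Agent.H677R3.AbFx

/-!
From the combinatorial vanishing theorem to the vanishing of the Koszul homology of `I(G)^q`.
-/

set_option linter.unusedSectionVars false

namespace Pool.Agent.H816R3.EdgeLow

open Finset Pool.Agent.H677R3 Pool.Agent.H677R3.Ab

variable {n : ℕ}

/-- vanishing next to loops -/
def HLoop (K : Type*) [Field K] (G : SimpleGraph (Fin n)) (σ : ℕ) : Prop :=
  ∀ m, EdgeReg.IsDeg G m → ∀ Λ U' : Finset (Fin n), Λ.Nonempty → (∀ v ∈ Λ, CC G m v v) →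
    (∀ v ∈ Λ, ∀ w ∈ Λ, v ≠ w → ¬ CC G m v w) → (∀ u ∈ U', ∀ v ∈ Λ, ¬ CC G m u v) →
    ∀ j, σ + 1 ≤ j + Λ.card → HV K (Ind (CC G m) U') j

/-- vanishing after the support -/
def HOrd (K : Type*) [Field K] (G : SimpleGraph (Fin n)) (σ : ℕ) : Prop :=
  ∀ ρ : Fin n → ℕ, Function.Injective ρ → ∀ m, EdgeReg.IsDeg G m → ∀ S : Finset (Fin n),
    (∀ x ∈ S, ∀ y, y ∉ S → ρ y < ρ x) → (∀ x ∈ S, m x ≠ 0) →
    (∃ x y m', x ∈ S ∧ y ∈ S ∧ G.Adj x y ∧ EdgeReg.IsDeg G m' ∧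
      ∀ z, m z = m' z + EdgeReg.e1 x z + EdgeReg.e1 y z) →
    ∀ U : Finset (Fin n), (∀ p ∈ U, ∀ v, ρ p < ρ v → ¬ DU G m p v) → ∀ j, σ + 1 ≤ j →
      HV K (Ind (CC G m) U) j

/-- the family of the Koszul strand -/
def Fc (G : SimpleGraph (Fin n)) (a : Fin n → ℕ) (q : ℕ) (T : Finset (Fin n)) : Prop :=
  ∃ d, EdgeReg.IsDeg G d ∧ ∑ x, d x = 2 * q ∧ ∀ x, d x + (if x ∈ T then 1 else 0) ≤ a x

/-- the combinatorial upper bound -/
def UpperComb (K : Type*) [Field K] (G : SimpleGraph (Fin n)) : Prop :=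
  ∀ (σ r : ℕ), HLoop K G σ → HOrd K G σ → (∀ U0 j, r ≤ j → HV K (Ind G.Adj U0) j) →
    ∀ (q : ℕ), 1 ≤ q → ∀ (i e : ℕ), r + q - 1 < e → 2 * q - 1 + σ < e → ∀ (a : Fin n → ℕ),
    ∑ x, a x = i + e → ∀ (c : Finset (Fin n) → K), (∀ T, c T ≠ 0 → Fc G a q T ∧ T.card = i) →
    (∀ T, ∑ x ∈ Tᶜ, (-1 : K) ^ (T.filter (· < x)).card * c (insert x T) = 0) →
    ∃ g : Finset (Fin n) → K, (∀ T, g T ≠ 0 → Fc G a q T ∧ T.card = i + 1) ∧
      ∀ T, ∑ x ∈ Tᶜ, (-1 : K) ^ (T.filter (· < x)).card * g (insert x T) = c T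

variable {k : Type*} [Field k]

theorem hLoop (G : SimpleGraph (Fin n)) (sig : ℕ) (hsig : 1 ≤ sig)
    (hadj : ∀ x y, G.Adj x y → ∀ (U0 : Finset (Fin n)) (j : ℕ), sig ≤ j →
      HV k (Ind (away G x y).Adj U0) j) : HLoop k G sig := by
  intro m hm L U hne hL hLL hUL j hj
  exact fx_loop G sig hsig hadj m hm L U hne hL hLL hUL j hj

theorem hOrd (G : SimpleGraph (Fin n)) (sig : ℕ) (hsig : 1 ≤ sig)
    (hadj : ∀ x y, G.Adj x y → ∀ (U0 : Finset (Fin n)) (j : ℕ), sig ≤ j →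
      HV k (Ind (away G x y).Adj U0) j) : HOrd k G sig := by
  rintro ρ hρ m hm S hS hmS ⟨x, y, m', hx, hy, hxy, hm', hmm⟩ U hU j hj
  exact fx_order G sig hsig hadj m hm ρ hρ S hS hmS hx hy hxy m' hm' hmm U.card U le_rfl hU j hj

lemma fc_iff (G : SimpleGraph (Fin n)) (b : Fin n →₀ ℕ) (q : ℕ) (T : Finset (Fin n)) :
    EdgeReg.KK (EdgeReg.Up G q) b T ↔ Fc G ⇑b q T := by
  constructor
  · rintro ⟨h1, d, hd, hsum, hle⟩
    refine ⟨d, hd, hsum, fun x => ?_⟩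
    have h2 := h1 x
    have h3 := hle x
    rw [Finsupp.coe_tsub, Pi.sub_apply] at h3
    rw [EdgeReg.ind_apply] at h2 h3
    omega
  · rintro ⟨d, hd, hsum, hle⟩
    refine ⟨fun x => ?_, d, hd, hsum, fun x => ?_⟩
    · have h2 := hle x
      rw [EdgeReg.ind_apply]
      omega
    · have h2 := hle x
      rw [Finsupp.coe_tsub, Pi.sub_apply, EdgeReg.ind_apply]
      omega

/-- the vanishing of the Koszul homology of `I(G)^q` -/
theorem hupper (G : SimpleGraph (Fin n)) (UC : UpperComb k G) (r sig q : ℕ) (hsig : 1 ≤ sig) (hq : 1 ≤ q)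
    (hr : ∀ (U0 : Finset (Fin n)) (j : ℕ), r ≤ j → HV k (Ind G.Adj U0) j)
    (hadj : ∀ x y, G.Adj x y → ∀ (U0 : Finset (Fin n)) (j : ℕ), sig ≤ j →
      HV k (Ind (away G x y).Adj U0) j) (i e : ℕ) (he : max (r + q - 1) (2 * q - 1 + sig) < e) :
    ¬ EdgeReg.TorNe ((EdgeReg.edgeIdeal k G) ^ q) i e := by
  apply EdgeReg.upper_transfer _ (EdgeReg.Up G q) (EdgeReg.mem_pow k G q)
  intro b hb a ha hc
  obtain ⟨g, hg1, hg2⟩ := UC sig r (hLoop G sig hsig hadj) (hOrd G sig hsig hadj) hr q hq i e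
    (lt_of_le_of_lt (le_max_left _ _) he) (lt_of_le_of_lt (le_max_right _ _) he) ⇑b
    (by rw [hb]; ring) a (fun T hT => ⟨(fc_iff G b q T).1 (ha T hT).1, (ha T hT).2⟩) hc
  exact ⟨g, fun T hT => ⟨(fc_iff G b q T).2 (hg1 T hT).1, (hg1 T hT).2⟩, hg2⟩

end Pool.Agent.H816R3.EdgeLow
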